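import Pool.Agent.Y240.BN.Fin

/-!
# The Benes conjecture fails by an arbitrarily large factor (MP_dc8297_co)

The definitions (in `Pool/Agent/Y240/BN/Defs.lean`) are those of the starting file
`BenesFalse.lean`; `F L` and `R L` are the least `m ≥ 1` such that `L^m` is externally connected,
resp. rearrangeable (`⊤` if there is none).

* `R(L)` is finite if and only if `F(L)` is finite, and then all large powers are rearrangeable.
* `R(L)` is not bounded by any function of `F(L)`, even among the simple regular `L` with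
  `F(L) = 2`: for every `k ≥ 3` there is one of degree `k` with `2 k` vertices in each class and
  `k ≤ R(L) < ∞`.
* For every `k ≥ 2` there is a simple `L` of degree `k` with `2 k` vertices in each class,
  `F(L) = 3` and `k ^ 2 ≤ R(L) < ∞`: here `R(L)` is at least quadratic in the size.
-/

set_option autoImplicit false

namespace Pool.Agent.Results.MP_dc8297_co.UnboundedRatio

open Pool.Agent.Y240.BN

theorem F_le {n m : ℕ} {L : TwoStage n} (h1 : 1 ≤ m) (h : ExternallyConnected L m) : F L ≤ m :=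
  iInf_le (fun m : {m : ℕ // 1 ≤ m ∧ ExternallyConnected L m} => ((m : ℕ) : ℕ∞)) ⟨m, h1, h⟩

theorem R_le {n m : ℕ} {L : TwoStage n} (h1 : 1 ≤ m) (h : Rearrangeable L m) : R L ≤ m :=
  iInf_le (fun m : {m : ℕ // 1 ≤ m ∧ Rearrangeable L m} => ((m : ℕ) : ℕ∞)) ⟨m, h1, h⟩

theorem F_le_R {n k : ℕ} {L : TwoStage n} (hk : 1 ≤ k) (hr : IsRegular L k) : F L ≤ R L :=
  le_iInf fun m => F_le m.2.1 (ext_of_rearrangeable hk hr m.2.2)

theorem exists_of_lt {p : ℕ → Prop} (h : (⨅ m : {m : ℕ // 1 ≤ m ∧ p m}, ((m : ℕ) : ℕ∞)) < ⊤) :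
    ∃ m, 1 ≤ m ∧ p m := by
  by_contra hcon
  push Not at hcon
  have : IsEmpty {m : ℕ // 1 ≤ m ∧ p m} := ⟨fun m => hcon m.1 m.2.1 m.2.2⟩
  rw [iInf_of_empty] at h
  exact lt_irrefl _ h

theorem R_lt_top {n k : ℕ} {L : TwoStage n} (hr : IsRegular L k) {m : ℕ} (h : ExternallyConnected L m) : R L < ⊤ := by
  obtain ⟨m0, h0⟩ := eventually_rearrangeable hr h
  exact lt_of_le_of_lt (R_le (m := m0 + 1) (by omega) (h0 _ (by omega))) (ENat.natCast_lt_top _)

/-- **The Benes conjecture fails by an arbitrarily large factor.** -/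
theorem result :
    -- the negated form of the question
    (∃ (n k m : ℕ) (L : TwoStage n), 1 ≤ n ∧ 1 ≤ k ∧ 1 ≤ m ∧ IsSimple L ∧ IsRegular L k ∧
      ExternallyConnected L m ∧ ¬ Rearrangeable L (2 * m)) ∧
    -- `F(L) ≤ R(L)`, and `R(L)` is finite if `F(L)` is; then all large powers are rearrangeable
    (∀ (n k : ℕ) (L : TwoStage n), 1 ≤ k → IsRegular L k →
      F L ≤ R L ∧ (F L < ⊤ → R L < ⊤ ∧ ∃ m0 : ℕ, ∀ m, m0 ≤ m → Rearrangeable L m)) ∧
    -- `R(L)` is not bounded in terms of `F(L)`, even for `F(L) = 2`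
    (∀ k : ℕ, 3 ≤ k → ∃ L : TwoStage (k + k), IsSimple L ∧ IsRegular L k ∧ F L = 2 ∧
      (k : ℕ∞) ≤ R L ∧ R L < ⊤) ∧
    -- `R(L)` can be quadratic in the size of `L` while `F(L) = 3`
    (∀ k : ℕ, 2 ≤ k → ∃ L : TwoStage (k + k), IsSimple L ∧ IsRegular L k ∧ F L = 3 ∧
      ((k ^ 2 : ℕ) : ℕ∞) ≤ R L ∧ R L < ⊤) := by
  have hder : ∀ k : ℕ, 3 ≤ k → ∃ σ : Equiv.Perm (Fin k), ∀ i, σ i ≠ i := by
    intro k hk
    obtain ⟨l, rfl⟩ : ∃ l, k = l + 2 := ⟨k - 2, by omega⟩
    refine ⟨finRotate (l + 2), fun i h => ?_⟩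
    rw [finRotate_apply] at h
    have h1 : (1 : Fin (l + 2)) = 0 := by
      have : i + 1 = i + 0 := by rw [h, add_zero]
      exact add_left_cancel this
    exact absurd h1 one_ne_zero
  have hnot1 : ∀ (k : ℕ) (σ : Equiv.Perm (Fin k)), 3 ≤ k → ∀ m, Rearrangeable (blk k (B1 k σ)) m → k ≤ m := by
    intro k σ hk m hm
    have h := blk_bound (B1_simple k σ) (B1_regular k σ) hm (B1_cut k σ)
    exact le_of_mul_le_mul_right h (by omega)
  refine ⟨?_, ?_, ?_, ?_⟩
  · obtain ⟨σ, hσ⟩ := hder 5 (by norm_num)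
    refine ⟨5 + 5, 5, 2, blk 5 (B1 5 σ), by norm_num, by norm_num, by norm_num, B1_simple _ _, B1_regular _ _,
      B1_ext (by norm_num) σ hσ, fun h => ?_⟩
    have := hnot1 5 σ (by norm_num) _ h
    omega
  · intro n k L hk hr
    refine ⟨F_le_R hk hr, fun h => ?_⟩
    obtain ⟨m, -, hm⟩ := exists_of_lt h
    exact ⟨R_lt_top hr hm, eventually_rearrangeable hr hm⟩
  · intro k hk
    obtain ⟨σ, hσ⟩ := hder k hk
    refine ⟨blk k (B1 k σ), B1_simple _ _, B1_regular _ _, ?_, ?_, R_lt_top (B1_regular _ _) (B1_ext hk σ hσ)⟩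
    · apply le_antisymm (F_le (by norm_num) (B1_ext hk σ hσ))
      refine le_iInf fun m => ?_
      obtain ⟨m, h1, h2⟩ := m
      have : 2 ≤ m := by
        by_contra hcon
        have e : m = 1 := by omega
        subst e
        have h3 := ext_one_iff.1 h2 (finSumFinEquiv (Sum.inl ⟨0, by omega⟩)) (finSumFinEquiv (Sum.inl ⟨0, by omega⟩))
        unfold blk at h3
        rw [Equiv.symm_apply_apply] at h3
        simp [B1] at h3
      exact_mod_cast this
    · refine le_iInf fun m => ?_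
      exact_mod_cast hnot1 k σ hk m.1 m.2.2
  · intro k hk
    refine ⟨blk k (B2 k), B2_simple _, B2_regular _, ?_, ?_, R_lt_top (B2_regular _) (B2_ext hk)⟩
    · apply le_antisymm (F_le (by norm_num) (B2_ext hk))
      refine le_iInf fun m => ?_
      obtain ⟨m, h1, h2⟩ := m
      have : 3 ≤ m := by
        by_contra hcon
        have hlt : m = 1 ∨ m = 2 := by omega
        rcases hlt with e | e
        · subst e
          have h3 := ext_one_iff.1 h2 (finSumFinEquiv (Sum.inl ⟨0, by omega⟩)) (finSumFinEquiv (Sum.inl ⟨0, by omega⟩))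
          unfold blk at h3
          rw [Equiv.symm_apply_apply] at h3
          simp [B2] at h3
        · subst e
          obtain ⟨p, h3, h4⟩ := h2 (finSumFinEquiv (Sum.inl ⟨1, by omega⟩)) (finSumFinEquiv (Sum.inr ⟨1, by omega⟩))
          have h5 := lt_of_le_of_lt (Nat.zero_le _) (p.edge 0).isLt
          have h6 := lt_of_le_of_lt (Nat.zero_le _) (p.edge 1).isLt
          have e1 : p.vert (Fin.castSucc 0) = finSumFinEquiv (Sum.inl ⟨1, by omega⟩) := h3
          have e2 : p.vert (Fin.succ 1) = finSumFinEquiv (Sum.inr ⟨1, by omega⟩) := h4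
          have e3 : (Fin.castSucc 1 : Fin 3) = Fin.succ 0 := rfl
          rw [e1] at h5
          rw [e2, e3] at h6
          unfold blk at h5 h6
          rw [Equiv.symm_apply_apply] at h5 h6
          rcases hz : finSumFinEquiv.symm (p.vert (Fin.succ 0)) with z | z
          · rw [hz] at h6
            simp [B2] at h6
          · rw [hz] at h5
            simp [B2] at h5
      exact_mod_cast this
    · refine le_iInf fun m => ?_
      have h := blk_bound (B2_simple k) (B2_regular k) m.2.2 (B2_cut k)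
      rw [mul_one, ← sq] at h
      exact_mod_cast h

end Pool.Agent.Results.MP_dc8297_co.UnboundedRatio
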